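import Mathlib
import Pool.Agent.R104.PT6

set_option autoImplicit false

namespace Pool.Agent.Results.MP_bf0901_co.ParityLimit

open Filter Topology Pool.Agent.H502R2 Pool.Agent.R104.PT
open scoped goldenRatio

/-- the set of all numerical semigroups of genus `g`: subsets `S` of `ℕ` containing `0`, closed
under addition, with exactly `g` gaps -/
def NS (g : ℕ) : Set (Set ℕ) :=
  {S | 0 ∈ S ∧ (∀ a ∈ S, ∀ b ∈ S, a + b ∈ S) ∧ Sᶜ.Finite ∧ Sᶜ.ncard = g}

/-- the pseudo-Frobenius numbers of `S`: integers `x`, not in `S`, with `x + s ∈ S` for all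
`s ∈ S \ {0}` -/
def PFZ (S : Set ℕ) : Set ℤ :=
  {x | (∀ y ∈ S, (y : ℤ) ≠ x) ∧ ∀ s ∈ S, s ≠ 0 → ∃ y ∈ S, (y : ℤ) = x + s}

/-- the type -/
noncomputable def typ (S : Set ℕ) : ℕ := (PFZ S).ncard

/-- the number of numerical semigroups of genus `g` -/
noncomputable def n (g : ℕ) : ℕ := (NS g).ncard

/-- the number of numerical semigroups of genus `g` and odd type -/
noncomputable def nodd (g : ℕ) : ℕ := {S | S ∈ NS g ∧ Odd (typ S)}.ncard

theorem PFZ_eq {S : AddSubmonoid ℕ} {g : ℕ} (hS : S ∈ SG g) (hg : 1 ≤ g) :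
    PFZ (S : Set ℕ) = (fun k : ℕ => (k : ℤ)) '' PF (S : Set ℕ) := by
  have hm := mul_spec hS
  have hm2 := mul_ge_two hS hg
  ext x
  constructor
  · rintro ⟨h1, h2⟩
    have hx : 0 ≤ x := by
      by_contra hneg
      push Not at hneg
      obtain ⟨y, hy, hyx⟩ := h2 (mul S) hm.1 (by omega)
      have hy0 : y = 0 := by
        by_contra h0
        have := mul_min (S := S) hy (by omega)
        omega
      rw [hy0] at hyx
      have hk := kz_pos hS (i := 1) (by omega) (by omega)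
      obtain ⟨z, hz, hzx⟩ := h2 (1 + kz S 1 * mul S) (kz_spec hS 1) (by omega)
      have hz' : z = 1 + (kz S 1 - 1) * mul S := by
        obtain ⟨c, hc⟩ : ∃ c, kz S 1 = c + 1 := ⟨kz S 1 - 1, by omega⟩
        rw [hc] at hzx ⊢
        push_cast at hzx
        have hxm : x = -(mul S : ℤ) := by
          have : (0 : ℤ) = x + mul S := by exact_mod_cast hyx
          linarith
        rw [hxm] at hzx
        have e : (z : ℤ) = 1 + (c : ℤ) * mul S := by rw [hzx]; ring
        have e2 : z = 1 + c * mul S := by exact_mod_cast e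
        rw [e2, Nat.add_sub_cancel]
      rw [hz'] at hz
      have := (mem_iff hS 1 (kz S 1 - 1)).1 hz
      omega
    obtain ⟨k, rfl⟩ := Int.eq_ofNat_of_zero_le hx
    refine ⟨k, ⟨fun hk => h1 k hk rfl, fun s hs hs0 => ?_⟩, rfl⟩
    obtain ⟨y, hy, hyx⟩ := h2 s hs hs0
    have : y = k + s := by exact_mod_cast hyx
    rw [← this]
    exact hy
  · rintro ⟨k, ⟨hk1, hk2⟩, rfl⟩
    refine ⟨fun y hy hyk => ?_, fun s hs hs0 => ⟨k + s, hk2 s hs hs0, by push_cast; rfl⟩⟩
    simp only at hyk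
    have : y = k := by exact_mod_cast hyk
    rw [this] at hy
    exact hk1 hy

theorem typ_eq {S : AddSubmonoid ℕ} {g : ℕ} (hS : S ∈ SG g) (hg : 1 ≤ g) :
    typ (S : Set ℕ) = (PF (S : Set ℕ)).ncard := by
  rw [typ, PFZ_eq hS hg]
  exact Set.ncard_image_of_injective _ (fun a b h => by exact_mod_cast h)

theorem mem_NS {g : ℕ} {S : Set ℕ} : S ∈ NS g ↔ ∃ T ∈ SG g, (T : Set ℕ) = S := by
  constructor
  · rintro ⟨h0, h1, h2, h3⟩
    exact ⟨{ carrier := S, zero_mem' := h0, add_mem' := fun {a b} ha hb => h1 a ha b hb },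
      ⟨h2, h3⟩, rfl⟩
  · rintro ⟨T, hT, rfl⟩
    exact ⟨T.zero_mem, fun a ha b hb => T.add_mem ha hb, hT.1, hT.2⟩

theorem n_eq (g : ℕ) : n g = (SF g).card := by
  have h : NS g = (fun S : AddSubmonoid ℕ => (S : Set ℕ)) '' (SF g : Set (AddSubmonoid ℕ)) := by
    ext S
    rw [mem_NS]
    constructor
    · rintro ⟨T, hT, rfl⟩
      exact ⟨T, mem_SF.2 hT, rfl⟩
    · rintro ⟨T, hT, rfl⟩
      exact ⟨T, mem_SF.1 hT, rfl⟩
  rw [n, h, Set.ncard_image_of_injective _ SetLike.coe_injective, Set.ncard_coe_finset]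

open Classical in
theorem nodd_eq {g : ℕ} (hg : 1 ≤ g) :
    nodd g = ((SF g).filter (fun S : AddSubmonoid ℕ => Odd (PF (S : Set ℕ)).ncard)).card := by
  have h : {S | S ∈ NS g ∧ Odd (typ S)} = (fun S : AddSubmonoid ℕ => (S : Set ℕ)) ''
      ((SF g).filter (fun S : AddSubmonoid ℕ => Odd (PF (S : Set ℕ)).ncard) : Set (AddSubmonoid ℕ)) := by
    ext S
    rw [Set.mem_ofPred_eq, mem_NS]
    constructor
    · rintro ⟨⟨T, hT, rfl⟩, hodd⟩
      refine ⟨T, ?_, rfl⟩
      rw [Finset.mem_coe, Finset.mem_filter, mem_SF]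
      rw [typ_eq hT hg] at hodd
      exact ⟨hT, hodd⟩
    · rintro ⟨T, hT, rfl⟩
      rw [Finset.mem_coe, Finset.mem_filter, mem_SF] at hT
      refine ⟨⟨T, hT.1, rfl⟩, ?_⟩
      rw [typ_eq hT.1 hg]
      exact hT.2
  rw [nodd, h, Set.ncard_image_of_injective _ SetLike.coe_injective, Set.ncard_coe_finset]

theorem DD_eq {g : ℕ} (hg : 1 ≤ g) : DD g = (n g : ℤ) - 2 * nodd g := by
  classical
  rw [n_eq, nodd_eq hg, DD, Finset.card_filter]
  push_cast
  rw [Finset.card_eq_sum_ones]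
  push_cast
  rw [Finset.mul_sum, ← Finset.sum_sub_distrib]
  apply Finset.sum_congr rfl
  intro S _
  split_ifs with h
  · rw [h.neg_one_pow]; norm_num
  · rw [(Nat.not_odd_iff_even.1 h).neg_one_pow]; norm_num

theorem n_lower {g : ℕ} (hg : 20 ≤ g) : 2 * φ ^ g ≤ (n g : ℝ) := by
  have h0 : n g = (SG g).ncard := by
    rw [n_eq, ← Set.ncard_coe_finset]
    congr 1
    ext S
    rw [Finset.mem_coe, mem_SF]
  rw [h0]
  obtain ⟨k, rfl⟩ := Nat.exists_eq_add_of_le hg
  refine (Pool.Agent.Y460.NS.Tt_phi k).trans ?_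
  have h1 := Tt_le (20 + k)
  have h2 := TW_le (20 + k)
  exact_mod_cast h1.trans h2

/-- **Half of the numerical semigroups have odd type, asymptotically**; the error is exponentially
small in the genus. -/
theorem result :
    Tendsto (fun g => (nodd g : ℝ) / n g) atTop (𝓝 (1 / 2)) ∧
    ∃ C : ℝ, ∀ g : ℕ, 1 ≤ g → |(nodd g : ℝ) / n g - 1 / 2| ≤ C * (0.9999 : ℝ) ^ g := by
  have hmain : ∃ C : ℝ, ∀ g : ℕ, 1 ≤ g → |(nodd g : ℝ) / n g - 1 / 2| ≤ C * (0.9999 : ℝ) ^ g := by
    obtain ⟨C, hC⟩ := decay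
    have hC0 : 0 ≤ C := by
      have := hC 0
      norm_num at this
      linarith
    refine ⟨C + 1, fun g hg => ?_⟩
    have hp : (0 : ℝ) < (0.9999 : ℝ) ^ g := by positivity
    rcases Nat.lt_or_ge g 20 with h20 | h20
    · have h1 : (nodd g : ℝ) ≤ n g := by
        have : nodd g ≤ n g := by
          classical
          rw [n_eq, nodd_eq hg]
          exact Finset.card_le_card (Finset.filter_subset _ _)
        exact_mod_cast this
      have h2 : (0 : ℝ) ≤ (nodd g : ℝ) / n g := by positivity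
      have h3 : (nodd g : ℝ) / n g ≤ 1 := div_le_one_of_le₀ h1 (Nat.cast_nonneg _)
      have h4 : (1 / 2 : ℝ) ≤ (0.9999 : ℝ) ^ g := by
        calc (1 / 2 : ℝ) ≤ (0.9999 : ℝ) ^ 20 := by norm_num
          _ ≤ (0.9999 : ℝ) ^ g := pow_le_pow_of_le_one (by norm_num) (by norm_num) h20.le
      have h5 : |(nodd g : ℝ) / n g - 1 / 2| ≤ 1 / 2 := by
        rw [abs_le]; constructor <;> linarith
      nlinarith
    · have hn := n_lower h20
      have hφg : (0 : ℝ) < φ ^ g := pow_pos Real.goldenRatio_pos _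
      have hn0 : (0 : ℝ) < n g := by linarith
      have hD := DD_bound g
      have hDe : (DD g : ℝ) = (n g : ℝ) - 2 * nodd g := by
        rw [DD_eq hg]; push_cast; ring
      have hdec := hC g
      have e : (nodd g : ℝ) / n g - 1 / 2 = -(DD g : ℝ) / (2 * n g) := by
        rw [hDe]; field_simp; ring
      rw [e, abs_div, abs_neg, abs_of_pos (by linarith : (0 : ℝ) < 2 * n g), div_le_iff₀ (by linarith)]
      have h1 : (|DD g| : ℝ) ≤ C * (0.9999 : ℝ) ^ g * φ ^ g :=
        hD.trans (mul_le_mul_of_nonneg_right hdec hφg.le)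
      have h2 : 0 ≤ C * (0.9999 : ℝ) ^ g := by positivity
      have h3 : C * (0.9999 : ℝ) ^ g * φ ^ g ≤ (C + 1) * (0.9999 : ℝ) ^ g * (2 * n g) := by
        apply mul_le_mul _ (by linarith) hφg.le (by positivity)
        nlinarith
      exact h1.trans h3
  refine ⟨?_, hmain⟩
  obtain ⟨C, hC⟩ := hmain
  rw [tendsto_iff_norm_sub_tendsto_zero]
  have hz : Tendsto (fun g : ℕ => C * (0.9999 : ℝ) ^ g) atTop (𝓝 0) := by
    have := (tendsto_pow_atTop_nhds_zero_of_lt_one (r := (0.9999 : ℝ)) (by norm_num)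
      (by norm_num)).const_mul C
    rwa [mul_zero] at this
  refine squeeze_zero' (Eventually.of_forall fun g => norm_nonneg _) ?_ hz
  filter_upwards [eventually_ge_atTop 1] with g hg
  rw [Real.norm_eq_abs]
  exact hC g hg

end Pool.Agent.Results.MP_bf0901_co.ParityLimit
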